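import Mathlib

namespace Pool.Agent.Results.MP_086516_nt.Full

open Complex Polynomial

/-- the primitive root `exp (2 π i / k)` -/
noncomputable def zeta (k : ℕ) : ℂ := Complex.exp (2 * Real.pi * Complex.I / k)

/-- the coefficient vectors of the `k`-th roots of unity in the basis `1, ζ, …, ζ^(d-1)` -/
def A (k : ℕ) : Set (Fin (Nat.totient k) → ℤ) :=
  {a | (∑ j, (a j : ℂ) * zeta k ^ (j : ℕ)) ^ k = 1}

/-- the Laurent polynomial `F_k` evaluated at `x` -/
noncomputable def F (k : ℕ) (x : Fin (Nat.totient k) → ℂ) : ℂ :=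
  ∑ᶠ a ∈ A k, ∏ j, x j ^ (a j)

theorem exists_le {I : Type} (T : Finset I) (s : I → ℝ) (hs : ∀ i ∈ T, s i ≠ 0) :
    ∃ r : ℝ, ∑ i ∈ T, Real.cos (r * s i) ≤ 0 := by
  by_contra h
  push Not at h
  let K : ℝ → ℝ := fun r => ∑ i ∈ T, Real.sin (r * s i) / s i
  let M : ℝ → ℝ := fun r => ∑ i ∈ T, -Real.cos (r * s i) / (s i) ^ 2
  have hK : ∀ r, HasDerivAt K (∑ i ∈ T, Real.cos (r * s i)) r := by
    intro r
    apply HasDerivAt.fun_sum
    intro i hi
    have h1 := ((hasDerivAt_mul_const (x := r) (s i)).sin).div_const (s i)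
    have h2 := hs i hi
    exact h1.congr_deriv (by field_simp)
  have hM : ∀ r, HasDerivAt M (K r) r := by
    intro r
    apply HasDerivAt.fun_sum
    intro i hi
    have h1 := ((hasDerivAt_mul_const (x := r) (s i)).cos.neg).div_const ((s i) ^ 2)
    have h2 := hs i hi
    exact h1.congr_deriv (by field_simp)
  have mono : StrictMono K := strictMono_of_deriv_pos fun r => by
    rw [(hK r).deriv]; exact h r
  have K0 : K 0 = 0 := by simp [K]
  have K1 : 0 < K 1 := by rw [← K0]; exact mono one_pos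
  let B : ℝ := ∑ i ∈ T, 1 / (s i) ^ 2
  have hB : ∀ r, |M r| ≤ B := by
    intro r
    refine (Finset.abs_sum_le_sum_abs _ _).trans (Finset.sum_le_sum fun i hi => ?_)
    rw [abs_div, abs_neg, abs_of_nonneg (sq_nonneg (s i))]
    exact div_le_div_of_nonneg_right (Real.abs_cos_le_one _) (sq_nonneg _)
  have B0 : 0 ≤ B := (abs_nonneg _).trans (hB 0)
  set R : ℝ := 1 + (2 * B + 1) / K 1 with hR
  have R1 : 1 < R := by
    have : 0 < (2 * B + 1) / K 1 := by positivity
    linarith
  obtain ⟨c, hc, hc2⟩ := exists_hasDerivAt_eq_slope M K R1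
    (fun r _ => (hM r).continuousAt.continuousWithinAt) (fun r _ => hM r)
  have h1 : K 1 < K c := mono hc.1
  have h2 : R - 1 = (2 * B + 1) / K 1 := by rw [hR]; ring
  have h3 : M R - M 1 ≤ 2 * B := by
    have a := abs_le.1 (hB R)
    have b := abs_le.1 (hB 1)
    linarith
  rw [hc2, h2, lt_div_iff₀ (by positivity)] at h1
  have h4 : K 1 * ((2 * B + 1) / K 1) = 2 * B + 1 := by field_simp
  linarith

theorem bij (k : ℕ) (hk : k ≠ 0) :
    Set.BijOn (fun a : Fin (Nat.totient k) → ℤ => ∑ j, (a j : ℂ) * zeta k ^ (j : ℕ)) (A k)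
      (nthRootsFinset k (1 : ℂ) : Set ℂ) := by
  have hz : IsPrimitiveRoot (zeta k) k := Complex.isPrimitiveRoot_exp k hk
  have hpos : 0 < k := Nat.pos_of_ne_zero hk
  have : NeZero k := ⟨hk⟩
  refine ⟨fun a ha => ?_, fun a _ b _ hab => ?_, fun u hu => ?_⟩
  · simp only [Finset.mem_coe, Polynomial.mem_nthRootsFinset hpos]
    exact ha
  · have li := linearIndependent_pow (K := ℚ) (zeta k)
    have hd : (minpoly ℚ (zeta k)).natDegree = Nat.totient k := by
      rw [← cyclotomic_eq_minpoly_rat hz hpos, natDegree_cyclotomic]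
    rw [hd] at li
    rw [Fintype.linearIndependent_iff] at li
    have := li (fun j => ((a j - b j : ℤ) : ℚ)) (by
      simp only at hab
      simp only [Rat.smul_def]
      push_cast
      simp only [sub_mul, Finset.sum_sub_distrib]
      rw [hab, sub_self])
    funext j
    have h1 := this j
    have h2 : a j - b j = 0 := by exact_mod_cast h1
    omega
  · simp only [Finset.mem_coe, Polynomial.mem_nthRootsFinset hpos] at hu
    obtain ⟨i, _, rfl⟩ := hz.eq_pow_of_pow_eq_one hu
    let p : ℤ[X] := (X ^ i) %ₘ cyclotomic k ℤ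
    have hm : (cyclotomic k ℤ).Monic := cyclotomic.monic k ℤ
    have hdeg : p.natDegree < Nat.totient k := by
      rw [← natDegree_cyclotomic k ℤ]
      apply natDegree_modByMonic_lt _ hm
      intro h1
      have h2 := congrArg natDegree h1
      rw [natDegree_cyclotomic, natDegree_one] at h2
      exact (Nat.totient_pos.2 hpos).ne' h2
    have hroot : aeval (zeta k) (cyclotomic k ℤ) = 0 := by
      rw [aeval_def, eval₂_eq_eval_map, map_cyclotomic]
      exact (isRoot_cyclotomic_iff.2 hz)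
    have hev : aeval (zeta k) p = zeta k ^ i := by
      have := aeval_modByMonic_eq_self_of_root (p := X ^ i) hroot
      simpa using this
    have hsum : ∑ j : Fin (Nat.totient k), ((p.coeff j : ℤ) : ℂ) * zeta k ^ (j : ℕ) = zeta k ^ i := by
      rw [← hev, aeval_eq_sum_range' hdeg, Finset.sum_range]
      simp
    refine ⟨fun j => p.coeff j, ?_, hsum⟩
    show (∑ j : Fin (Nat.totient k), ((p.coeff j : ℤ) : ℂ) * zeta k ^ (j : ℕ)) ^ k = 1
    rw [hsum]; exact hu

theorem family (k : ℕ) (hk : k ≠ 0) (c : ℂ) (r : ℝ) :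
    F k (fun j => Complex.exp ((r * (c * zeta k ^ (j : ℕ)).im : ℝ) * I)) =
      ∑ u ∈ nthRootsFinset k (1 : ℂ), Complex.exp ((r * (c * u).im : ℝ) * I) := by
  rw [F, ← finsum_mem_coe_finset]
  refine finsum_mem_eq_of_bijOn _ (bij k hk) fun a _ => ?_
  simp only [← Complex.exp_int_mul, ← Complex.exp_sum]
  congr 1
  rw [Finset.mul_sum, Complex.im_sum, Finset.mul_sum]
  push_cast
  rw [Finset.sum_mul]
  refine Finset.sum_congr rfl fun j _ => ?_
  have : (c * ((a j : ℂ) * zeta k ^ (j : ℕ))).im = (a j : ℝ) * (c * zeta k ^ (j : ℕ)).im := by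
    rw [mul_left_comm]
    simp
  rw [this]
  push_cast
  ring

theorem core (T : Finset ℂ) (s : ℂ → ℝ) (σ : ℂ → ℂ) (h1 : ∀ u ∈ T, σ u ∈ T)
    (h2 : ∀ u ∈ T, σ (σ u) = u) (h3 : ∀ u ∈ T, s (σ u) = - s u) (u0 : ℂ) (h0 : u0 ∈ T)
    (h4 : ∀ u ∈ T, u ≠ u0 → s u ≠ 0) :
    ∃ r : ℝ, ∑ u ∈ T, Complex.exp ((r * s u : ℝ) * I) = 1 := by
  classical
  have hsin : ∀ r : ℝ, ∑ u ∈ T, Real.sin (r * s u) = 0 := by
    intro r
    have : ∑ u ∈ T, Real.sin (r * s u) = ∑ u ∈ T, -Real.sin (r * s u) := by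
      refine Finset.sum_nbij' σ σ h1 h1 h2 h2 fun u hu => ?_
      rw [h3 u hu]; simp
    rw [Finset.sum_neg_distrib] at this
    linarith
  obtain ⟨r, hr⟩ := exists_le (T.erase u0) s fun u hu =>
    h4 u (Finset.mem_of_mem_erase hu) (Finset.ne_of_mem_erase hu)
  let G : ℝ → ℝ := fun r => ∑ u ∈ T, Real.cos (r * s u)
  have hc : Continuous G := by fun_prop
  have G1 : G r ≤ 1 := by
    show ∑ u ∈ T, Real.cos (r * s u) ≤ 1
    rw [← Finset.add_sum_erase _ _ h0]
    have := Real.cos_le_one (r * s u0)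
    linarith
  have G0 : 1 ≤ G 0 := by
    simp only [G, zero_mul, Real.cos_zero, Finset.sum_const, nsmul_eq_mul, mul_one]
    exact_mod_cast Finset.card_pos.2 ⟨u0, h0⟩
  obtain ⟨t, ht⟩ := intermediate_value_univ r 0 hc ⟨G1, G0⟩
  refine ⟨t, ?_⟩
  apply Complex.ext
  · rw [Complex.re_sum]
    simp only [Complex.exp_ofReal_mul_I_re]
    exact ht
  · rw [Complex.im_sum]
    simp only [Complex.exp_ofReal_mul_I_im]
    exact hsin t

theorem result (k : ℕ) (hk : 1 ≤ k) :
    (A k).ncard = k ∧ ∃ (x0 : ℂ) (x : Fin (Nat.totient k) → ℂ),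
      ‖x0‖ = 1 ∧ (∀ j, ‖x j‖ = 1) ∧ x0 + F k x = 0 := by
  have hk0 : k ≠ 0 := by omega
  have hpos : 0 < k := hk
  have hz : IsPrimitiveRoot (zeta k) k := Complex.isPrimitiveRoot_exp k hk0
  refine ⟨?_, ?_⟩
  · rw [(bij k hk0).ncard_eq, Set.ncard_coe_finset, hz.card_nthRootsFinset]
  have main : ∃ (c : ℂ) (r : ℝ),
      ∑ u ∈ nthRootsFinset k (1 : ℂ), Complex.exp ((r * (c * u).im : ℝ) * I) = 1 := by
    have one : (1 : ℂ) ∈ nthRootsFinset k (1 : ℂ) := by
      simp [Polynomial.mem_nthRootsFinset hpos]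
    rcases Nat.even_or_odd k with he | ho
    · let c : ℂ := Complex.exp (Real.pi / 2 * I / k)
      have hc : c ^ k = I := by
        rw [← Complex.exp_nat_mul, mul_div_cancel₀ _ (by exact_mod_cast hk0)]
        exact Complex.exp_pi_div_two_mul_I
      refine ⟨c, core _ (fun u => (c * u).im) (fun u => -u) ?_ ?_ ?_ 1 one ?_⟩
      · intro u hu
        rw [Polynomial.mem_nthRootsFinset hpos] at hu ⊢
        rw [he.neg_pow, hu]
      · intro u _; simp
      · intro u _; simp only [mul_neg, Complex.neg_im]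
      · intro u hu _ h
        rw [Polynomial.mem_nthRootsFinset hpos] at hu
        have h1 : (c * u) = ((c * u).re : ℂ) := by
          apply Complex.ext
          · simp only [Complex.ofReal_re]
          · simp only [Complex.ofReal_im]; exact h
        have h2 : (c * u) ^ k = I := by rw [mul_pow, hc, hu, mul_one]
        rw [h1, ← Complex.ofReal_pow] at h2
        have h3 := congrArg Complex.im h2
        rw [Complex.ofReal_im, Complex.I_im] at h3
        exact zero_ne_one h3
    · refine ⟨1, core _ (fun u => (1 * u).im) (fun u => (starRingEnd ℂ) u) ?_ ?_ ?_ 1 one ?_⟩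
      · intro u hu
        rw [Polynomial.mem_nthRootsFinset hpos] at hu ⊢
        rw [← map_pow, hu, map_one]
      · intro u _; simp
      · intro u _; simp
      · intro u hu hne h
        rw [Polynomial.mem_nthRootsFinset hpos] at hu
        rw [one_mul] at h
        have h1 : u = (u.re : ℂ) := by
          apply Complex.ext
          · simp only [Complex.ofReal_re]
          · simp only [Complex.ofReal_im]; exact h
        rw [h1, ← Complex.ofReal_pow] at hu
        have h2 : u.re ^ k = 1 := by exact_mod_cast hu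
        have h3 : u.re = 1 := (ho.pow_inj (a := u.re) (b := 1)).1 (by simpa using h2)
        exact hne (by rw [h1, h3]; simp)
  obtain ⟨c, r, h⟩ := main
  refine ⟨-1, fun j => Complex.exp ((r * (c * zeta k ^ (j : ℕ)).im : ℝ) * I), by simp,
    fun j => Complex.norm_exp_ofReal_mul_I _, ?_⟩
  rw [family k hk0 c r, h]
  simp

end Pool.Agent.Results.MP_086516_nt.Full
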